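import Pool.Agent.H86.KZ.S
import Pool.Agent.H45.EGH.GPM

/-!
# KZ, row GZM
-/

set_option autoImplicit false

namespace Pool.KZ

open MvPolynomial Pool.EGH

/-- GZM: multiplication by forms. -/
theorem t_gzm : GZMStmt := by
  intro K _ N Q a f hf s z hz
  obtain ⟨-, hmul, -, hmk⟩ := t_gpm K N Q
  unfold gz at hz ⊢
  have hmu : mu Q f z = Ideal.Quotient.mk Q f * z := rfl
  by_cases hs : 0 ≤ s
  · rw [if_pos hs] at hz
    rw [if_pos (by omega)]
    have h1 : Ideal.Quotient.mk Q f * z ∈ gp Q a * gp Q s.toNat :=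
      Submodule.mul_mem_mul (hmk a f hf) hz
    rw [hmul, show a + s.toNat = (s + (a : ℤ)).toNat by omega] at h1
    rw [hmu]
    exact h1
  · rw [if_neg hs, Submodule.mem_bot] at hz
    rw [hz, map_zero]
    exact zero_mem _

end Pool.KZ
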