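import Pool.Agent.H94.KZ.GZM
import Pool.Agent.H94.EGH.LIN
import Pool.Agent.H50.EGH.COL

/-!
# KZ, row REG
-/

set_option autoImplicit false

namespace Pool.KZ

open MvPolynomial Pool.EGH

namespace REGaux

variable {K : Type} [Field K] {N : ℕ}

theorem rep (l : ℕ → PR K N) (J : Finset ℕ) (f : PR K N)
    (hfJ : f ∈ Ideal.span (l '' (J : Set ℕ))) : ∃ g : ℕ → PR K N, ∑ i ∈ J, g i * l i = f := by
  classical
  obtain ⟨g, hg⟩ := (Submodule.mem_span_image_finset_iff_exists_fun (PR K N)).1 hfJ
  refine ⟨fun i => if h : i ∈ J then g ⟨i, h⟩ else 0, ?_⟩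
  rw [← hg, ← Finset.sum_coe_sort]
  refine Finset.sum_congr rfl fun i _ => ?_
  simp only [i.2, dite_true, smul_eq_mul, Subtype.coe_eta]

/-- Elements of the ideal generated by finitely many linear forms. -/
theorem span_rep (l : ℕ → PR K N) (J : Finset ℕ) (hl : ∀ j, l j ∈ fm K N 1) (n : ℕ)
    (f : PR K N) (hf : f ∈ fm K N (n + 1)) (hfJ : f ∈ Ideal.span (l '' (J : Set ℕ))) :
    ∃ r : ℕ → PR K N, (∀ i, r i ∈ fm K N n) ∧ f = ∑ i ∈ J, l i * r i := by
  classical
  obtain ⟨g, hg⟩ := rep l J f hfJ
  refine ⟨fun i => homogeneousComponent n (g i), fun i => homogeneousComponent_mem n (g i), ?_⟩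
  have h := congrArg (homogeneousComponent (n + 1)) hg
  rw [map_sum, COLaux.hc_self hf] at h
  rw [← h]
  exact Finset.sum_congr rfl fun i _ => by rw [mul_comm (g i), COLaux.hc_mul (hl i)]

theorem span_zero (l : ℕ → PR K N) (J : Finset ℕ) (hl : ∀ j, l j ∈ fm K N 1)
    (f : PR K N) (hf : f ∈ fm K N 0) (hfJ : f ∈ Ideal.span (l '' (J : Set ℕ))) : f = 0 := by
  classical
  obtain ⟨g, hg⟩ := rep l J f hfJ
  have h := congrArg (homogeneousComponent 0) hg
  rw [map_sum, COLaux.hc_self hf] at h
  rw [← h]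
  exact Finset.sum_eq_zero fun i _ => by rw [mul_comm (g i), COLaux.hc_mul_lt (hl i) _ one_pos]

theorem mk_inj : Function.Injective (Ideal.Quotient.mk (⊥ : Ideal (PR K N))) := by
  rw [RingHom.injective_iff_ker_eq_bot, Ideal.mk_ker]

theorem mu_mk (f g : PR K N) :
    mu (⊥ : Ideal (PR K N)) f (Ideal.Quotient.mk ⊥ g) = Ideal.Quotient.mk ⊥ (f * g) := rfl

theorem cm (l : ℕ → PR K N) : Cm (fun j => mu (⊥ : Ideal (PR K N)) (l j)) := by
  intro i j m
  obtain ⟨g, rfl⟩ := Ideal.Quotient.mk_surjective m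
  simp only [mu_mk]
  rw [mul_left_comm]

theorem dg' (l : ℕ → PR K N) (hl : ∀ j, l j ∈ fm K N 1) :
    Dg (fun j => mu (⊥ : Ideal (PR K N)) (l j)) (gz ⊥) := by
  intro i s m hm
  exact t_gzm K N ⊥ 1 (l i) (hl i) s m hm

/-- Representation of the last coefficient. -/
theorem top_rep (l : ℕ → PR K N) (J : Finset ℕ) (j : ℕ) (hj : j ∉ J)
    (hl : ∀ j, l j ∈ fm K N 1) (hi : LinearIndepOn K l ((insert j J : Finset ℕ) : Set ℕ))
    (s : ℤ) (m : PR K N ⧸ (⊥ : Ideal (PR K N))) (hm : m ∈ gz ⊥ s)
    (c : ℕ → PR K N ⧸ (⊥ : Ideal (PR K N)))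
    (h : mu ⊥ (l j) m = ∑ i ∈ J, mu ⊥ (l i) (c i)) :
    ∃ r : ℕ → PR K N ⧸ (⊥ : Ideal (PR K N)), (∀ i, r i ∈ gz ⊥ (s - 1)) ∧
      m = ∑ i ∈ J, mu ⊥ (l i) (r i) := by
  classical
  -- the ideal generated by the forms of `J`
  set L : Submodule K (PR K N) := Submodule.span K (l '' (J : Set ℕ)) with hLdef
  have hL1 : L ≤ fm K N 1 := Submodule.span_le.2 (by rintro _ ⟨i, -, rfl⟩; exact hl i)
  have hspan : Ideal.span (L : Set (PR K N)) = Ideal.span (l '' (J : Set ℕ)) := by
    apply le_antisymm
    · rw [Ideal.span_le]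
      intro x hx
      have hx' : x ∈ Submodule.span K (l '' (J : Set ℕ)) := hx
      exact Submodule.span_le_restrictScalars K (PR K N) _ hx'
    · exact Ideal.span_mono Submodule.subset_span
  have hjL : l j ∉ L := by
    have h0 : (j : ℕ) ∉ (J : Set ℕ) := by simpa using hj
    rw [Finset.coe_insert] at hi
    exact ((linearIndepOn_insert h0).1 hi).2
  obtain ⟨-, -, h3⟩ := t_lin K N L hL1
  have hreg := h3 (l j) (hl j) hjL
  rw [hspan] at hreg
  obtain ⟨f, rfl⟩ := Ideal.Quotient.mk_surjective m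
  choose g hg using fun i => Ideal.Quotient.mk_surjective (c i)
  have hf : f ∈ Ideal.span (l '' (J : Set ℕ)) := by
    apply hreg
    have h2 : Ideal.Quotient.mk (⊥ : Ideal (PR K N)) (l j * f) =
        Ideal.Quotient.mk ⊥ (∑ i ∈ J, l i * g i) := by
      rw [map_sum, ← mu_mk, h]
      exact Finset.sum_congr rfl fun i _ => by rw [← hg i, mu_mk]
    rw [mk_inj h2]
    refine Ideal.sum_mem _ fun i hi' => ?_
    exact Ideal.mul_mem_right _ _ (Ideal.subset_span ⟨i, hi', rfl⟩)
  unfold gz at hm
  by_cases hs : 0 ≤ s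
  · rw [if_pos hs] at hm
    obtain ⟨f', hf', hff⟩ := hm
    have hff' : f' = f := mk_inj hff
    subst hff'
    rcases Nat.eq_zero_or_pos s.toNat with h0 | hp
    · rw [h0] at hf'
      have := span_zero l J hl f' hf' hf
      refine ⟨fun _ => 0, fun _ => zero_mem _, ?_⟩
      rw [this, map_zero]
      simp
    · obtain ⟨n, hn⟩ := Nat.exists_eq_succ_of_ne_zero hp.ne'
      rw [hn] at hf'
      obtain ⟨r, hr, hfr⟩ := span_rep l J hl n f' hf' hf
      refine ⟨fun i => Ideal.Quotient.mk ⊥ (r i), fun i => ?_, ?_⟩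
      · unfold gz
        rw [if_pos (by omega), show (s - 1).toNat = n by omega]
        exact ⟨r i, hr i, rfl⟩
      · conv_lhs => rw [hfr]
        rw [map_sum]
        exact Finset.sum_congr rfl fun i _ => (mu_mk _ _).symm
  · rw [if_neg hs, Submodule.mem_bot] at hm
    refine ⟨fun _ => 0, fun _ => zero_mem _, ?_⟩
    rw [hm]
    simp

end REGaux

open REGaux in
/-- REG: independent linear forms are a regular sequence. -/
theorem t_reg (hinb : INBStmt) (hins : INSStmt) : REGStmt := by
  classical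
  intro K _ N l J hl
  induction J using Finset.induction_on with
  | empty =>
    intro _ p s hp c hc _
    refine ⟨0, zero_mem _, fun T _ => ?_⟩
    have : c T = 0 := (hc T).2 (by
      rintro ⟨hT, hcard⟩
      rw [Finset.card_empty] at hp
      omega)
    rw [this, map_zero]
    rfl
  | insert j J hj IH =>
    intro hi p s hp
    have hiJ : LinearIndepOn K l (J : Set ℕ) := hi.mono (by simp)
    rw [Finset.card_insert_of_notMem hj] at hp
    rcases lt_or_ge p (J.card : ℤ) with h | h
    · exact hins _ _ _ _ _ _ _ _ (cm l) (dg' l hl) hj (IH hiJ p s h)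
        (IH hiJ (p - 1) s (by omega))
    · have hpJ : p = J.card := by push_cast at hp; omega
      intro c hc hk
      refine hinb _ _ _ _ _ _ _ _ (cm l) (dg' l hl) hj (IH hiJ (p - 1) s (by omega)) c hc hk ?_
      -- the top coefficient
      have hrel := hk (insert j J) subset_rfl
      have hrel' : sg j (insert j J) • mu ⊥ (l j) (c J) +
          ∑ i ∈ J, sg i (insert j J) • mu ⊥ (l i) (c ((insert j J).erase i)) = 0 := by
        have h1 : kd (fun j => mu (⊥ : Ideal (PR K N)) (l j)) c (insert j J) =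
          ∑ i ∈ insert j J, sg i (insert j J) • mu ⊥ (l i) (c ((insert j J).erase i)) := rfl
        rw [h1, Finset.sum_insert hj, Finset.erase_insert hj] at hrel
        exact hrel
      have hsg : ∀ (i : ℕ) (T : Finset ℕ), sg i T * sg i T = 1 := by
        intro i T
        unfold sg
        rw [← mul_pow]; simp
      have hrel2 : mu ⊥ (l j) (c J) = ∑ i ∈ J, mu ⊥ (l i)
          (-(sg j (insert j J) * sg i (insert j J)) • c ((insert j J).erase i)) := by
        have h2 := congrArg (fun z => sg j (insert j J) • z) hrel'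
        simp only [smul_add, smul_zero, ← mul_smul, hsg, one_smul, Finset.smul_sum] at h2
        rw [eq_neg_of_add_eq_zero_left h2, ← Finset.sum_neg_distrib]
        refine Finset.sum_congr rfl fun i _ => ?_
        rw [map_zsmul, neg_smul]
      obtain ⟨r, hr, hcr⟩ := top_rep l J j hj hl hi s (c J) (hc J).1 _ hrel2
      -- the cochain
      let b : Finset ℕ → PR K N ⧸ (⊥ : Ideal (PR K N)) := fun T =>
        if T ⊆ J ∧ T.card + 1 = J.card then ∑ i ∈ J \ T, sg i J • r i else 0
      have hb : ∀ i ∈ J, b (J.erase i) = sg i J • r i := by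
        intro i hiJ'
        have h1 : J.erase i ⊆ J ∧ (J.erase i).card + 1 = J.card :=
          ⟨Finset.erase_subset _ _, Finset.card_erase_add_one hiJ'⟩
        have h2 : J \ J.erase i = {i} := by
          ext x
          simp only [Finset.mem_sdiff, Finset.mem_erase, Finset.mem_singleton]
          constructor
          · rintro ⟨h3, h4⟩
            by_contra h5
            exact h4 ⟨h5, h3⟩
          · rintro rfl
            exact ⟨hiJ', fun h => h.1 rfl⟩
        change (if J.erase i ⊆ J ∧ (J.erase i).card + 1 = J.card then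
          ∑ i ∈ J \ J.erase i, sg i J • r i else 0) = _
        rw [if_pos h1, h2, Finset.sum_singleton]
      refine ⟨b, fun T => ⟨?_, fun hT => ?_⟩, fun T hT => ?_⟩
      · change (if T ⊆ J ∧ T.card + 1 = J.card then ∑ i ∈ J \ T, sg i J • r i else 0) ∈ _
        split_ifs with h1
        · exact Submodule.sum_mem _ fun i _ => zsmul_mem (hr i) _
        · exact zero_mem _
      · change (if T ⊆ J ∧ T.card + 1 = J.card then ∑ i ∈ J \ T, sg i J • r i else 0) = 0
        rw [if_neg]
        rintro ⟨h1, h2⟩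
        exact hT ⟨h1, by rw [hpJ]; omega⟩
      · by_cases hTJ : T = J
        · subst hTJ
          change ∑ i ∈ T, sg i T • mu ⊥ (l i) (b (T.erase i)) = c T
          rw [hcr]
          refine Finset.sum_congr rfl fun i hiT => ?_
          rw [hb i hiT, map_zsmul, ← mul_smul, hsg, one_smul]
        · have hlt : T.card < J.card := Finset.card_lt_card (hT.ssubset_of_ne hTJ)
          have h1 : c T = 0 := (hc T).2 (by rintro ⟨-, h2⟩; rw [hpJ] at h2; omega)
          rw [h1]
          change ∑ i ∈ T, sg i T • mu ⊥ (l i) (b (T.erase i)) = 0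
          refine Finset.sum_eq_zero fun i hiT => ?_
          have h2 : b (T.erase i) = 0 := by
            change (if T.erase i ⊆ J ∧ (T.erase i).card + 1 = J.card then
              ∑ i ∈ J \ T.erase i, sg i J • r i else 0) = 0
            rw [if_neg]
            rintro ⟨-, h3⟩
            rw [Finset.card_erase_add_one hiT] at h3
            omega
          rw [h2, map_zero, smul_zero]

end Pool.KZ
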